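import Mathlib
import Pool.Agent.Y152.RP.Stm

/-!
# Project RP: the arithmetic theorem from its parts
-/

set_option autoImplicit false

namespace Pool.Agent.Y232.RP

open Polynomial Pool.Agent.Y152 Pool.Agent.Y152.RP

/-- A nonzero integral polynomial vanishing at a radical number. -/
theorem exists_poly {t : ℂ} (h : Rad t) : ∃ F : ℤ[X], F ≠ 0 ∧ aeval t F = 0 := by
  obtain ⟨N, hN, q, hq⟩ := h
  refine ⟨C (q.den : ℤ) * X ^ N - C q.num, ?_, ?_⟩
  · intro h0
    have h1 := congrArg (fun P => P.coeff N) h0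
    simp only [coeff_sub, coeff_C_mul, coeff_X_pow, if_true, mul_one, coeff_C, hN.ne', if_false,
      sub_zero, coeff_zero] at h1
    exact q.den_ne_zero (by exact_mod_cast h1)
  · rw [map_sub, map_mul, map_pow, aeval_X, aeval_C, aeval_C, hq]
    have h1 : (q : ℂ) * (q.den : ℂ) = (q.num : ℂ) := by
      exact_mod_cast Rat.mul_den_eq_num q
    have h2 : (algebraMap ℤ ℂ (q.den : ℤ)) = (q.den : ℂ) := by simp
    have h3 : (algebraMap ℤ ℂ q.num) = (q.num : ℂ) := by simp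
    rw [h2, h3, mul_comm, h1, sub_self]

/-- An irreducible integral polynomial vanishing at a radical number. -/
theorem exists_irr {t : ℂ} (h : Rad t) : ∃ G : ℤ[X], Irreducible G ∧ aeval t G = 0 := by
  classical
  obtain ⟨F, hF0, hFτ⟩ := exists_poly h
  obtain ⟨f, hf, u, hu⟩ := UniqueFactorizationMonoid.exists_prime_factors F hF0
  have h1 : aeval t f.prod = 0 := by
    have h2 := congrArg (aeval t) hu
    rw [map_mul, hFτ] at h2
    rcases mul_eq_zero.1 h2 with h3 | h3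
    · exact h3
    · exfalso
      have h4 := (u.isUnit.map (aeval t : ℤ[X] →ₐ[ℤ] ℂ)).ne_zero
      exact h4 h3
  rw [map_multiset_prod, Multiset.prod_eq_zero_iff, Multiset.mem_map] at h1
  obtain ⟨G, hG, hGτ⟩ := h1
  exact ⟨G, (hf G hG).irreducible, hGτ⟩

theorem isAlg {t : ℂ} (h : Rad t) : IsAlgebraic ℚ t := by
  obtain ⟨F, hF0, hFt⟩ := exists_poly h
  have h1 : IsAlgebraic ℤ t := ⟨F, hF0, hFt⟩
  exact h1.extendScalars (R := ℤ) (S := ℚ) (algebraMap ℤ ℚ).injective_int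

/-- The arithmetic theorem. -/
theorem arith : ScaleStm → ExpStm → StructStm → LargeStm → SmallStm → ArithStm := by
  classical
  intro hScale hExp hStruct hLarge hSmall D L M hLM α hα0 hα
  obtain ⟨N, hN⟩ := hLarge D
  have hfin := fun g : Fin 3 ↪ Fin M => hSmall D N (fun i => α (g i)) (fun i => hα0 _)
    (fun i j hij => hα _ _ (fun h => hij (g.injective h)))
  refine ((Set.finite_singleton (0 : ℂ)).union (Set.finite_iUnion hfin)).subset ?_
  rintro t ⟨hRad, hbad⟩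
  by_cases ht0 : t = 0
  · left
    exact ht0
  right
  obtain ⟨G, hG, hGt⟩ := exists_irr hRad
  let Gd : Finset (Fin M) := Finset.univ.filter fun l =>
    ∃ p : ℕ, p.Prime ∧ D < p ∧ (p : ℤ) ∣ BD.Nv G (α l)
  have hcard : Gd.card < L := by
    by_contra hge
    push Not at hge
    apply hbad
    obtain ⟨S, hS, hSc⟩ := Finset.exists_subset_card_eq hge
    refine ⟨fun l => S.orderEmbOfFin hSc l, (S.orderEmbOfFin hSc).injective, G, hG, hGt,
      fun l => ?_⟩
    exact (Finset.mem_filter.1 (hS (Finset.orderEmbOfFin_mem S hSc l))).2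
  have hcompl : 3 ≤ Gdᶜ.card := by
    rw [Finset.card_compl, Fintype.card_fin]
    omega
  obtain ⟨S, hS, hSc⟩ := Finset.exists_subset_card_eq hcompl
  obtain ⟨g, hg⟩ : ∃ g : Fin 3 ↪ Fin M, g = (S.orderEmbOfFin hSc).toEmbedding := ⟨_, rfl⟩
  have hb : ∀ i, Bad1 D (t / (α (g i) : ℂ)) := by
    intro i
    refine hScale D t (α (g i)) (hα0 _) G hG hGt ?_
    have h1 : g i ∉ Gd := by
      rw [hg]
      exact Finset.mem_compl.1 (hS (Finset.orderEmbOfFin_mem S hSc i))
    intro p hp hpD hdvd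
    exact h1 (Finset.mem_filter.2 ⟨Finset.mem_univ _, p, hp, hpD, hdvd⟩)
  obtain ⟨f, hf, ⟨n, hn, ω, hω, q, hq, htq⟩, hdg⟩ := hStruct t ht0 hRad
  refine Set.mem_iUnion.2 ⟨g, ht0, ?_, hb⟩
  rcases le_or_gt n N with hnN | hnN
  · exact ⟨f, hf, ⟨n, hn, hnN, ω, hω, q, hq, htq⟩, hdg⟩
  · exfalso
    have key : ∀ i, q = (α (g i) ^ f) ^ 2 := by
      intro i
      have h1 := hExp D t (α (g i)) f hf (hα0 _) (isAlg hRad) hdg (hb i)
      have ha0 : (α (g i) ^ f) ^ 2 ≠ 0 := pow_ne_zero _ (pow_ne_zero _ (hα0 _))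
      have hapos : 0 < (α (g i) ^ f) ^ 2 := by positivity
      have h2 : (t ^ f / (α (g i) : ℂ) ^ f) ^ 2 = ω * ((q / (α (g i) ^ f) ^ 2 : ℚ) : ℂ) := by
        rw [div_pow, htq]
        push_cast
        rw [mul_div_assoc]
      have h3 := hN n hnN.le ω _ (q / (α (g i) ^ f) ^ 2) hω (div_pos hq hapos) h2 h1
      rwa [div_eq_one_iff_eq ha0] at h3
    have h4 : (α (g 0) ^ f) ^ 2 = (α (g 1) ^ f) ^ 2 := by rw [← key 0, ← key 1]
    have h5 : |α (g 0)| ^ (f * 2) = |α (g 1)| ^ (f * 2) := by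
      have e : ∀ x : ℚ, |x| ^ (f * 2) = (x ^ f) ^ 2 := fun x => by
        rw [pow_mul, ← abs_pow, sq_abs]
      rw [e, e]
      exact h4
    have h6 : |α (g 0)| = |α (g 1)| :=
      (pow_left_inj₀ (abs_nonneg _) (abs_nonneg _) (by omega)).1 h5
    exact hα _ _ (fun h => absurd (g.injective h) (by decide)) h6

end Pool.Agent.Y232.RP
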